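import Pool.Agent.H.MP_3155f9_ag.Main

namespace Pool.Agent.Results.MP_3155f9_ag.AllEquiv

open MvPowerSeries

/-- Contact equivalence of pairs in F[[x,y]]: g = U · φ(f) with U in GL(2,R), φ in Aut_F(R). -/
def ContactEquiv {F : Type*} [Field F] (f g : Fin 2 → MvPowerSeries (Fin 2) F) : Prop :=
  ∃ (U : GL (Fin 2) (MvPowerSeries (Fin 2) F))
    (φ : MvPowerSeries (Fin 2) F ≃ₐ[F] MvPowerSeries (Fin 2) F),
    g = (U : Matrix (Fin 2) (Fin 2) (MvPowerSeries (Fin 2) F)).mulVec (fun i => φ (f i))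

/-- The germ f_{a,b}, with x = X 0, y = X 1. -/
noncomputable def germ {F : Type*} [Field F] (a b : F) : Fin 2 → MvPowerSeries (Fin 2) F :=
  ![X 0 ^ 3 + X 1 ^ 5 + C a * X 1 ^ 6 + C b * X 1 ^ 8, X 0 ^ 2 * X 1 + X 0 * X 1 ^ 2]

theorem result (F : Type*) [Field F] [CharP F 2] (a b c d : F) :
    ContactEquiv (germ a b) (germ c d) := by
  obtain ⟨U, φ, h⟩ := Pool.Agent.H.MP_3155f9_ag.main (CharP.cast_eq_zero F 2) a b c d
  refine ⟨U, φ, h.trans ?_⟩
  congr 1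
  funext i
  fin_cases i <;> rfl

end Pool.Agent.Results.MP_3155f9_ag.AllEquiv
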